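import Mathlib
import Pool.Agent.H55.AkLac

/-!
# Slopes of lacunary height never give an exponent below 2

The height of a rational `r = a / b` in lowest terms is `max |a| b`.
-/

namespace Pool.Agent.Results.MP_169869_co.LacunarySlopes

theorem result (δ : ℝ) (hδ : 0 < δ) :
    ∃ D : ℕ, ∀ r : ℕ → ℚ,
      D ≤ max (r 0).num.natAbs (r 0).den →
      (∀ j, (max (r j).num.natAbs (r j).den) ^ D ≤ max (r (j + 1)).num.natAbs (r (j + 1)).den) →
      (∀ j, r j ≠ -1) ∧
      ∀ S : Finset ℚ, (∀ s ∈ S, ∃ j, s = r j) →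
        ∃ A : Finset (ℤ × ℤ),
          (max ((A.image (fun p : ℤ × ℤ => (p.2 : ℚ))).card : ℝ)
              ((S.sup (fun r : ℚ =>
                  (A.image (fun p : ℤ × ℤ => (p.1 : ℚ) + r * (p.2 : ℚ))).card) : ℕ) : ℝ))
            ^ (2 - δ) <
          ((A.image (fun p : ℤ × ℤ => (p.1 : ℚ) + (-1) * (p.2 : ℚ))).card : ℝ) :=
  Pool.Agent.H55.Lac.lacunary δ hδ

end Pool.Agent.Results.MP_169869_co.LacunarySlopes
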