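import Pool.Agent.H55.PR.Power

set_option autoImplicit false

namespace Pool.Agent.H55.Old.PowerSaving_3579fe

/-- The Poljak-Roedl function satisfies `f(n) ≤ C n^(21/22)` for all `n ≥ 1`: there are finite
graphs `G`, `H`, both of chromatic number exactly `n`, whose tensor product has chromatic number
at most `C n^(21/22)`. -/
theorem result : ∃ C : ℝ, ∀ n : ℕ, 1 ≤ n →
    ∃ (a b : ℕ) (G : SimpleGraph (Fin a)) (H : SimpleGraph (Fin b)),
      G.chromaticNumber = (n : ℕ∞) ∧ H.chromaticNumber = (n : ℕ∞) ∧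
      ((SimpleGraph.fromRel
        (fun (x y : Fin a × Fin b) => G.Adj x.1 y.1 ∧ H.Adj x.2 y.2)).chromaticNumber.toNat : ℝ)
        ≤ C * (n : ℝ) ^ (21 / 22 : ℝ) :=
  Pool.Agent.H55.PR.power_saving

end Pool.Agent.H55.Old.PowerSaving_3579fe
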