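import Mathlib
import Pool.Agent.H55.AkSticky

/-!
# Arithmetic Kakeya for sets of small local dimension (sticky sets)

If a finite set `A ⊂ ℤ²` has at most `K^(1+δ)` subclasses modulo `m_{j+1}` in each of its classes
modulo `m_j`, where `1 = m_0 | m_1 | m_2 | ...` have no prime factor below `K`, then the `K` slopes
`0, 1, ..., K-2, ∞` already give `|A| ≤ (max |π_r(A)|)^(1+δ+ε)`.
-/

namespace Pool.Agent.Results.MP_169869_co.StickySets

open Pool.Agent.H55.AKS

theorem result :
    ∀ ε : ℝ, 0 < ε → ∃ K₀ : ℕ, ∀ K : ℕ, K₀ ≤ K → ∀ δ : ℝ, 0 ≤ δ → δ ≤ 1 →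
      ∀ m : ℕ → ℕ, m 0 = 1 → (∀ j, m j ∣ m (j + 1)) → (∀ j, m j < m (j + 1)) →
        (∀ j p, p.Prime → p ∣ m j → K ≤ p) →
        ∀ A : Finset (ℤ × ℤ),
          (∀ j, ∀ a ∈ A,
            (((A.filter (fun b : ℤ × ℤ => b.1 % (m j : ℤ) = a.1 % (m j : ℤ) ∧
                b.2 % (m j : ℤ) = a.2 % (m j : ℤ))).image
              (fun b : ℤ × ℤ => (b.1 % (m (j + 1) : ℤ), b.2 % (m (j + 1) : ℤ)))).card : ℝ) ≤
                (K : ℝ) ^ (1 + δ)) →
          (A.card : ℝ) ≤
            (max ((A.image (fun p : ℤ × ℤ => p.2)).card : ℝ)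
              (((Finset.range (K - 1)).sup (fun r : ℕ =>
                (A.image (fun p : ℤ × ℤ => p.1 + (r : ℤ) * p.2)).card) : ℕ) : ℝ)) ^
              (1 + δ + ε) := by
  classical
  intro ε hε
  set ε' : ℝ := ε / (2 * (2 + ε)) with hε'
  have hε'pos : 0 < ε' := by positivity
  -- choice of ξ
  set ξ : ℝ := Real.exp (-(6 / ε')) with hξdef
  have hξ : 0 < ξ := Real.exp_pos _
  have hξ1 : ξ < 1 := by
    rw [hξdef, Real.exp_lt_one_iff]
    have : 0 < 6 / ε' := by positivity
    linarith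
  have hlogξ : Real.log (1 / ξ) = 6 / ε' := by
    rw [one_div, Real.log_inv, hξdef, Real.log_exp, neg_neg]
  obtain ⟨K₁, hK₁⟩ := exists_nat_ge (max (1 / ξ) (2 / (ε' * ξ)))
  refine ⟨max K₁ 2, ?_⟩
  intro K hK δ hδ hδ1 m hm0 hmd hmlt hmp A hbr
  have hK2 : 2 ≤ K := le_trans (le_max_right _ _) hK
  have hKK : (K₁ : ℝ) ≤ K := by exact_mod_cast le_trans (le_max_left _ _) hK
  have hKpos : (0 : ℝ) < K := by positivity
  have hKξ : 1 / (K * ξ) ≤ 1 := by
    rw [div_le_one (by positivity)]
    have : 1 / ξ ≤ K := le_trans (le_trans (le_max_left _ _) hK₁) hKK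
    rwa [div_le_iff₀ hξ] at this
  have hKξ2 : 1 / (K * ξ) ≤ ε' / 2 := by
    have : 2 / (ε' * ξ) ≤ K := le_trans (le_trans (le_max_right _ _) hK₁) hKK
    rw [div_le_iff₀ (by positivity)] at this
    rw [div_le_iff₀ (by positivity)]
    nlinarith
  set c : ℝ := 1 / (1 + δ + ε) with hc
  have hcpos : 0 < c := by positivity
  have hcond : δ / (1 + δ) + 1 / (K * ξ) + (2 + 1 / (K * ξ)) / Real.log (1 / ξ) ≤ 1 - c := by
    have h1 : (2 + 1 / (K * ξ)) / Real.log (1 / ξ) ≤ ε' / 2 := by
      rw [hlogξ, div_le_iff₀ (by positivity)]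
      have : ε' / 2 * (6 / ε') = 3 := by field_simp; norm_num
      rw [this]; linarith
    have h2 : ε' ≤ 1 / (1 + δ) - c := by
      rw [hc, hε', div_sub_div _ _ (by positivity) (by positivity),
        div_le_div_iff₀ (by positivity) (by positivity)]
      have h3 : (1 + δ) * (1 + δ + ε) ≤ 2 * (2 + ε) := by nlinarith
      have e : 1 * (1 + δ + ε) - (1 + δ) * 1 = ε := by ring
      rw [e]
      exact mul_le_mul_of_nonneg_left h3 hε.le
    have h4 : δ / (1 + δ) = 1 - 1 / (1 + δ) := by field_simp; ring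
    linarith
  -- trivial case
  rcases Finset.eq_empty_or_nonempty A with rfl | hA
  · simp only [Finset.card_empty, Nat.cast_zero]
    positivity
  set N : ℕ := max (A.image (fun p : ℤ × ℤ => p.2)).card
    ((Finset.range (K - 1)).sup (fun r : ℕ =>
      (A.image (fun p : ℤ × ℤ => p.1 + (r : ℤ) * p.2)).card)) with hN
  have hNcast : (max ((A.image (fun p : ℤ × ℤ => p.2)).card : ℝ)
      (((Finset.range (K - 1)).sup (fun r : ℕ =>
        (A.image (fun p : ℤ × ℤ => p.1 + (r : ℤ) * p.2)).card) : ℕ) : ℝ)) = (N : ℝ) := by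
    rw [hN]; push_cast; rfl
  rw [hNcast]
  have hN1 : 1 ≤ N := by
    refine le_trans ?_ (le_max_left _ _)
    exact Finset.card_pos.mpr (hA.image _)
  -- the forms
  set R : Finset (ℤ × ℤ) := insert ((0 : ℤ), (1 : ℤ))
    ((Finset.range (K - 1)).image (fun r : ℕ => ((1 : ℤ), (r : ℤ)))) with hR
  have hRcard : R.card = K := by
    rw [hR, Finset.card_insert_of_notMem, Finset.card_image_of_injective, Finset.card_range]
    · omega
    · intro r s hrs
      simpa using hrs
    · simp
  have hmpos : ∀ j, 0 < m j := by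
    intro j
    induction j with
    | zero => rw [hm0]; norm_num
    | succ j ih => exact lt_trans ih (hmlt j)
  -- coprimality
  have hcopn : ∀ j (d : ℕ), 0 < d → d < K → IsCoprime (d : ℤ) (m j : ℤ) := by
    intro j d hd hdK
    rw [Nat.isCoprime_iff_coprime]
    rw [Nat.coprime_iff_gcd_eq_one] at *
    by_contra hne
    obtain ⟨p, hp, hpd⟩ := Nat.exists_prime_and_dvd hne
    have h1 : p ∣ d := dvd_trans hpd (Nat.gcd_dvd_left _ _)
    have h2 : p ∣ m j := dvd_trans hpd (Nat.gcd_dvd_right _ _)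
    have := hmp j p hp h2
    have := Nat.le_of_dvd hd h1
    omega
  have hcopz : ∀ j (d : ℤ), d ≠ 0 → |d| < K → IsCoprime d (m j : ℤ) := by
    intro j d hd hdK
    have h1 := hcopn j d.natAbs (Int.natAbs_pos.mpr hd) (by zify; exact hdK)
    rw [Int.natCast_natAbs] at h1
    rcases abs_choice d with h | h
    · rwa [h] at h1
    · rw [h] at h1
      exact (IsCoprime.neg_left_iff _ _).mp h1
  have hcop : ∀ j, ∀ f ∈ R, ∀ g ∈ R, f ≠ g →
      IsCoprime (f.1 * g.2 - f.2 * g.1) (m j : ℤ) := by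
    intro j f hf g hg hfg
    rw [hR, Finset.mem_insert, Finset.mem_image] at hf hg
    rcases hf with rfl | ⟨r, hr, rfl⟩ <;> rcases hg with rfl | ⟨s, hs, rfl⟩
    · exact absurd rfl hfg
    · simp only [zero_mul, mul_one, zero_sub]
      exact (isCoprime_one_left).neg_left
    · simp only [mul_zero, mul_one, sub_zero]
      exact isCoprime_one_left
    · simp only [one_mul, mul_one]
      rw [Finset.mem_range] at hr hs
      have hrs : (r : ℤ) ≠ s := by
        intro h
        exact hfg (by rw [h])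
      apply hcopz
      · exact sub_ne_zero.mpr (Ne.symm hrs)
      · rw [abs_lt]
        constructor <;> omega
  -- classes
  have hcl : ∀ (M : ℕ) (a b : ℤ × ℤ), cl M a = cl M b ↔
      (a.1 % (M : ℤ) = b.1 % (M : ℤ) ∧ a.2 % (M : ℤ) = b.2 % (M : ℤ)) := by
    intro M a b
    simp only [cl, Prod.mk.injEq]
    rw [ZMod.intCast_eq_intCast_iff', ZMod.intCast_eq_intCast_iff']
  have hbr' : ∀ i, ∀ a ∈ A, ((((A.filter (fun b => cl (m i) b = cl (m i) a)).image
      (cl (m (i + 1)))).card : ℝ) ≤ (K : ℝ) ^ (1 + δ)) := by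
    intro i a ha
    refine le_trans ?_ (hbr i a ha)
    have e1 : (A.filter (fun b => cl (m i) b = cl (m i) a)) =
        (A.filter (fun b : ℤ × ℤ => b.1 % (m i : ℤ) = a.1 % (m i : ℤ) ∧
                b.2 % (m i : ℤ) = a.2 % (m i : ℤ))) := by
      apply Finset.filter_congr
      intro b _
      exact hcl _ _ _
    rw [e1]
    have e2 : ((A.filter (fun b : ℤ × ℤ => b.1 % (m i : ℤ) = a.1 % (m i : ℤ) ∧
                b.2 % (m i : ℤ) = a.2 % (m i : ℤ))).image (cl (m (i + 1)))) =
        (((A.filter (fun b : ℤ × ℤ => b.1 % (m i : ℤ) = a.1 % (m i : ℤ) ∧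
                b.2 % (m i : ℤ) = a.2 % (m i : ℤ))).image
              (fun b : ℤ × ℤ => (b.1 % (m (i + 1) : ℤ), b.2 % (m (i + 1) : ℤ)))).image
          (cl (m (i + 1)))) := by
      rw [Finset.image_image]
      apply Finset.image_congr
      intro b _
      simp [cl]
    rw [e2]
    exact_mod_cast Finset.card_image_le
  -- m j is large
  have hmge : ∀ j, j < m j := by
    intro j
    induction j with
    | zero => rw [hm0]; norm_num
    | succ j ih => have := hmlt j; omega
  -- separation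
  obtain ⟨J, hJ⟩ : ∃ J : ℕ, ∀ a ∈ A, ∀ b ∈ A, cl (m J) a = cl (m J) b → a = b := by
    obtain ⟨T, hT⟩ : ∃ T : ℕ, ∀ a ∈ A, |a.1| ≤ T ∧ |a.2| ≤ T := by
      refine ⟨∑ a ∈ A, (a.1.natAbs + a.2.natAbs), ?_⟩
      intro a ha
      have h1 : a.1.natAbs + a.2.natAbs ≤ ∑ a ∈ A, (a.1.natAbs + a.2.natAbs) :=
        Finset.single_le_sum (f := fun a : ℤ × ℤ => a.1.natAbs + a.2.natAbs)
          (fun _ _ => Nat.zero_le _) ha
      constructor
      · rw [Int.abs_eq_natAbs]
        exact_mod_cast le_trans (Nat.le_add_right _ _) h1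
      · rw [Int.abs_eq_natAbs]
        exact_mod_cast le_trans (Nat.le_add_left _ _) h1
    refine ⟨2 * T + 1, ?_⟩
    intro a ha b hb hab
    have hM := hmge (2 * T + 1)
    rw [hcl] at hab
    have key : ∀ x y : ℤ, |x| ≤ T → |y| ≤ T → x % (m (2 * T + 1) : ℤ) = y % (m (2 * T + 1) : ℤ) →
        x = y := by
      intro x y hx hy hxy
      have h1 : (m (2 * T + 1) : ℤ) ∣ x - y := by
        apply Int.dvd_of_emod_eq_zero
        rw [Int.sub_emod, hxy, sub_self, Int.zero_emod]
      by_contra hne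
      have h2 := Int.le_of_dvd (abs_pos.mpr (sub_ne_zero.mpr hne)) ((dvd_abs _ _).mpr h1)
      have h3 : |x - y| ≤ |x| + |y| := abs_sub _ _
      have h4 : ((2 * T + 1 : ℕ) : ℤ) < m (2 * T + 1) := by exact_mod_cast hM
      push_cast at h4
      linarith
    exact Prod.ext (key _ _ (hT a ha).1 (hT b hb).1 hab.1) (key _ _ (hT a ha).2 (hT b hb).2 hab.2)
  have hone : ∀ a ∈ A, ∀ b ∈ A, cl (m 0) a = cl (m 0) b := by
    intro a _ b _
    rw [hcl, hm0]
    simp
  have hmain := induct R hRcard hK2 m hcop hδ hξ hξ1 hcond J 0 A hA hone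
    (by rw [Nat.zero_add]; exact hJ) hbr'
  -- conclusion
  have hup : ∑ f ∈ R, Real.log ((A.image (lin f)).card : ℝ) ≤ K * Real.log N := by
    rw [← hRcard, ← nsmul_eq_mul]
    apply Finset.sum_le_card_nsmul
    intro f hf
    apply Real.log_le_log
    · exact_mod_cast Finset.card_pos.mpr (hA.image _)
    · have : (A.image (lin f)).card ≤ N := by
        rw [hR, Finset.mem_insert, Finset.mem_image] at hf
        rcases hf with rfl | ⟨r, hr, rfl⟩
        · refine le_trans (le_of_eq ?_) (le_max_left _ _)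
          congr 1
          apply Finset.image_congr
          intro p _
          simp [lin]
        · refine le_trans ?_ (le_max_right _ _)
          refine le_trans (le_of_eq ?_) (Finset.le_sup (f := fun r : ℕ =>
            (A.image (fun p : ℤ × ℤ => p.1 + (r : ℤ) * p.2)).card) hr)
          congr 1
          apply Finset.image_congr
          intro p _
          simp [lin]
      exact_mod_cast this
  have h5 : c * Real.log (A.card : ℝ) ≤ Real.log N := by
    have := le_trans hmain hup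
    exact le_of_mul_le_mul_left this hKpos
  have hApos : (0 : ℝ) < A.card := by exact_mod_cast Finset.card_pos.mpr hA
  have hNpos : (0 : ℝ) < N := by exact_mod_cast hN1
  rw [← Real.log_le_log_iff hApos (Real.rpow_pos_of_pos hNpos _), Real.log_rpow hNpos]
  have h6 : Real.log (A.card : ℝ) = (1 + δ + ε) * (c * Real.log (A.card : ℝ)) := by
    rw [hc]; field_simp
  rw [h6]
  exact mul_le_mul_of_nonneg_left h5 (by positivity)

end Pool.Agent.Results.MP_169869_co.StickySets
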