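import Pool.Agent.H55.GWP.FIN

set_option autoImplicit false

namespace Pool.Agent.H55.Old.TreeActions

/-- A finitely generated group `P = ⟨a_1, …, a_k | rels⟩` with a quotient `G` that acts on a tree
with a loxodromic WPD element `h` such that `⟨h⟩` has infinite index in `G` has generically
computable word problem, even with exponentially small exceptional sets. -/
theorem result {G V : Type*} [Group G] [MulAction G V] {T : SimpleGraph V}
    (hT : T.IsTree) (act : ∀ (g : G) (u v : V), T.Adj u v → T.Adj (g • u) (g • v))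
    {k : ℕ} (rels : Set (FreeGroup (Fin k))) (φ : FreeGroup (Fin k) →* G)
    (hφ : Function.Surjective φ) (hrels : ∀ r ∈ rels, φ r = 1)
    (h : G) (p : V) (hτ : 0 < T.dist p (h • p))
    (hax : ∀ n : ℕ, T.dist p (h ^ n • p) = n * T.dist p (h • p))
    (N : ℕ) (hN : 1 ≤ N)
    (hfin : {x : G | x • p = p ∧ x • h ^ N • p = h ^ N • p}.Finite)
    (hidx : (Subgroup.zpowers h).index = 0) :
    ∃ f : List (Fin k × Bool) →. Bool,
      Partrec f ∧
      (∀ w : List (Fin k × Bool), ∀ b ∈ f w,
        (b = true ↔ FreeGroup.mk w ∈ Subgroup.normalClosure rels)) ∧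
      (∃ C κ : ℝ, 0 < C ∧ 0 < κ ∧ κ < 1 ∧
        ∀ n : ℕ, ({w : List (Fin k × Bool) | w.length = n ∧ ¬ (f w).Dom}.ncard : ℝ) ≤
          C * κ ^ n * ({w : List (Fin k × Bool) | w.length = n}.ncard : ℝ)) ∧
      Filter.Tendsto
        (fun n : ℕ =>
          ({w : List (Fin k × Bool) | w.length ≤ n ∧ (f w).Dom}.ncard : ℝ) /
            ({w : List (Fin k × Bool) | w.length ≤ n}.ncard : ℝ))
        Filter.atTop (nhds 1) :=
  GWP.tree_generic hT act rels φ hφ hrels h p hτ hax N hN hfin hidx

end Pool.Agent.H55.Old.TreeActions
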